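import Pool.Agent.P.MP_25e9c6_co.Defs

namespace Pool.Agent.P.MP_25e9c6_co

/-- the 3-cube -/
def Q3 : SimpleGraph (Fin 3 → Bool) := SimpleGraph.fromRel fun a b => hammingDist a b = 1

/-- the Cartesian product of a family of graphs -/
def boxPi {ι : Type} {V : ι → Type} (H : ∀ i, SimpleGraph (V i)) : SimpleGraph (∀ i, V i) :=
  SimpleGraph.fromRel fun a b => ∃ i, (H i).Adj (a i) (b i) ∧ ∀ j, j ≠ i → a j = b j

/-- `f` sends every edge to an edge or to a single vertex -/
def NonExp {W W' : Type} (G : SimpleGraph W) (G' : SimpleGraph W') (f : W → W') : Prop :=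
  ∀ u v, G.Adj u v → f u = f v ∨ G'.Adj (f u) (f v)

/-- `G` is a retract of `G'` -/
def IsRetract {W W' : Type} (G : SimpleGraph W) (G' : SimpleGraph W') : Prop :=
  ∃ (i : W → W') (r : W' → W), NonExp G G' i ∧ NonExp G' G r ∧ ∀ u, r (i u) = u

end Pool.Agent.P.MP_25e9c6_co
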