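import Pool.Agent.P.MP_25e9c6_co.Emb
import Pool.Agent.P.MP_25e9c6_co.Ret.Defs

namespace Pool.Agent.P.MP_25e9c6_co

open Finset

variable {ι : Type} {V : ι → Type} {H : ∀ i, SimpleGraph (V i)}

/-- `a` and `b` are joined by an edge of the factor `k` -/
def Col (H : ∀ i, SimpleGraph (V i)) (k : ι) (a b : ∀ i, V i) : Prop :=
  (H k).Adj (a k) (b k) ∧ ∀ j, j ≠ k → a j = b j

lemma Col.symm {k : ι} {a b : ∀ i, V i} (h : Col H k a b) : Col H k b a :=
  ⟨h.1.symm, fun j hj => (h.2 j hj).symm⟩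

lemma Col.adj {k : ι} {a b : ∀ i, V i} (h : Col H k a b) : (boxPi H).Adj a b :=
  (SimpleGraph.fromRel_adj _ _ _).2 ⟨fun e => h.1.ne (by rw [e]), .inl ⟨k, h⟩⟩

lemma Col.uniq {k k' : ι} {a b : ∀ i, V i} (h : Col H k a b) (h' : Col H k' a b) : k = k' := by
  by_contra hn
  exact h.1.ne (h'.2 k hn)

lemma col_of_adj {a b : ∀ i, V i} (h : (boxPi H).Adj a b) : ∃ k, Col H k a b := by
  obtain ⟨-, ⟨k, h⟩ | ⟨k, h⟩⟩ := (SimpleGraph.fromRel_adj _ _ _).1 h
  · exact ⟨k, h⟩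
  · exact ⟨k, Col.symm h⟩

/-- In a hexagon that survives a retraction two consecutive edges lie in the same factor. -/
lemma hex_col {T : Type} [Fintype T] (φ : (∀ i, V i) → T → Bool)
    (hφ : ∀ a b, (boxPi H).Adj a b → hammingDist (φ a) (φ b) ≤ 1) (p : Fin 6 → ∀ i, V i)
    (c : Fin 6 → ι) (hc : ∀ s, Col H (c s) (p s) (p (s + 1)))
    (h3 : ∀ s, hammingDist (φ (p s)) (φ (p (s + 3))) = 3)
    (hm : ∀ a s, ¬ (hammingDist (φ a) (φ (p s)) ≤ 1 ∧ hammingDist (φ a) (φ (p (s + 2))) ≤ 1 ∧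
      hammingDist (φ a) (φ (p (s + 4))) ≤ 1)) : c 5 = c 0 := by
  classical
  set k := c 0 with hk
  let M : Fin 6 → Fin 6 → ∀ i, V i := fun s t => Function.update (p s) k (p t k)
  let D : Fin 6 → Fin 6 → Fin 6 → Fin 6 → ℕ := fun s t s' t' =>
    hammingDist (φ (M s t)) (φ (M s' t'))
  let w : Fin 6 → ℕ := fun t => if c t = k then 1 else 0
  have hM : ∀ s, M s s = p s := fun s => Function.update_eq_self _ _
  have tr : ∀ s t s' t' s'' t'', D s t s'' t'' ≤ D s t s' t' + D s' t' s'' t'' :=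
    fun _ _ _ _ _ _ => hammingDist_triangle _ _ _
  have sy : ∀ s t s' t', D s t s' t' = D s' t' s t := fun _ _ _ _ => hammingDist_comm _ _
  have h1 : ∀ s t, D s t s (t + 1) ≤ w t := fun s t => by
    simp only [w]
    split_ifs with e
    · refine hφ _ _ (Col.adj (k := k) ⟨?_, fun j hj => by simp [M, hj]⟩)
      simpa [M] using (e ▸ hc t).1
    · simp [D, M, (hc t).2 k (Ne.symm e)]
  have h2 : ∀ s t, D s t (s + 1) t + w s ≤ 1 := fun s t => by
    simp only [w]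
    split_ifs with e
    · have : M s t = M (s + 1) t := funext fun j => by
        by_cases hj : j = k
        · subst hj; simp [M]
        · simp [M, hj, (hc s).2 j (e ▸ hj)]
      simp [D, this]
    · refine hφ _ _ (Col.adj (k := c s) ⟨by simpa [M, e] using (hc s).1, fun j hj => ?_⟩)
      by_cases hj' : j = k
      · subst hj'; simp [M]
      · simp [M, hj', (hc s).2 j hj]
  have a2 : ∀ s t, D s t s (t + 2) ≤ w t + w (t + 1) := fun s t => by
    have := tr s t s (t + 1) s (t + 2)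
    have := h1 s t
    have := h1 s (t + 1)
    rw [show t + 1 + 1 = t + 2 by omega] at this
    omega
  have b2 : ∀ s t, D s t (s + 2) t + w s + w (s + 1) ≤ 2 := fun s t => by
    have := tr s t (s + 1) t (s + 2) t
    have := h2 s t
    have := h2 (s + 1) t
    rw [show s + 1 + 1 = s + 2 by omega] at this
    omega
  have arc : ∀ s, w (s + 3) + w (s + 4) + w (s + 5) ≤ w s + w (s + 1) + w (s + 2) := fun s => by
    have k0 : D s s (s + 3) (s + 3) = 3 := by simp only [D, hM, h3]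
    have k1 := tr s s s (s + 2) (s + 3) (s + 3)
    have k2 := tr s (s + 2) s (s + 3) (s + 3) (s + 3)
    have k3 := tr (s + 3) (s + 3) (s + 5) (s + 3) s (s + 3)
    have k4 := sy s (s + 3) (s + 3) (s + 3)
    have k5 := a2 s s
    have k6 := h1 s (s + 2)
    have k7 := b2 (s + 3) (s + 3)
    have k8 := h2 (s + 5) (s + 3)
    rw [show s + 2 + 1 = s + 3 by omega] at k6
    rw [show s + 3 + 2 = s + 5 by omega, show s + 3 + 1 = s + 4 by omega] at k7
    rw [show s + 5 + 1 = s by omega] at k8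
    omega
  by_contra hn
  have w0 : w 0 = 1 := if_pos rfl
  have w5 : w 5 = 0 := if_neg hn
  have wl : ∀ s, w s ≤ 1 := fun s => by have := h2 s s; omega
  have r0 : w 3 + w 4 + w 5 ≤ w 0 + w 1 + w 2 := arc 0
  have r1 : w 4 + w 5 + w 0 ≤ w 1 + w 2 + w 3 := arc 1
  have r2 : w 5 + w 0 + w 1 ≤ w 2 + w 3 + w 4 := arc 2
  have r3 : w 0 + w 1 + w 2 ≤ w 3 + w 4 + w 5 := arc 3
  have r4 : w 1 + w 2 + w 3 ≤ w 4 + w 5 + w 0 := arc 4
  have r5 : w 2 + w 3 + w 4 ≤ w 5 + w 0 + w 1 := arc 5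
  have := wl 1
  by_cases e : w 1 = 0
  · refine hm (M 2 0) 0 ?_
    rw [← hM 0, ← hM (0 + 2), ← hM (0 + 4)]
    change D 2 0 0 0 ≤ 1 ∧ D 2 0 2 2 ≤ 1 ∧ D 2 0 4 4 ≤ 1
    have k1 : D 0 0 2 0 + w 0 + w 1 ≤ 2 := b2 0 0
    have k2 : D 2 0 2 2 ≤ w 0 + w 1 := a2 2 0
    have k3 : D 2 0 4 0 + w 2 + w 3 ≤ 2 := b2 2 0
    have k4 : D 4 4 4 0 ≤ w 4 + w 5 := a2 4 4
    have k5 := tr 2 0 4 0 4 4
    have k6 := sy 0 0 2 0
    have k7 := sy 4 4 4 0
    omega
  · refine hm (M 3 1) 1 ?_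
    rw [← hM 1, ← hM (1 + 2), ← hM (1 + 4)]
    change D 3 1 1 1 ≤ 1 ∧ D 3 1 3 3 ≤ 1 ∧ D 3 1 5 5 ≤ 1
    have k1 : D 1 1 3 1 + w 1 + w 2 ≤ 2 := b2 1 1
    have k2 : D 3 1 3 3 ≤ w 1 + w 2 := a2 3 1
    have k3 : D 3 1 5 1 + w 3 + w 4 ≤ 2 := b2 3 1
    have k4 : D 5 5 5 1 ≤ w 5 + w 0 := a2 5 5
    have k5 := tr 3 1 5 1 5 5
    have k6 := sy 1 1 3 1
    have k7 := sy 5 5 5 1
    omega

/-- A common neighbour of two points of a fibre lies in the fibre. -/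
lemma fib_step {k : ι} {o a b c : ∀ i, V i} (ha : ∀ j, j ≠ k → a j = o j)
    (hb : ∀ j, j ≠ k → b j = o j) (hab : a ≠ b) (h1 : (boxPi H).Adj c a) (h2 : (boxPi H).Adj c b) :
    ∀ j, j ≠ k → c j = o j := by
  obtain ⟨i, hi⟩ := col_of_adj h1
  obtain ⟨i', hi'⟩ := col_of_adj h2
  by_cases e : k = i
  · exact fun j hj => (hi.2 j (e ▸ hj)).trans (ha j hj)
  by_cases e' : k = i'
  · exact fun j hj => (hi'.2 j (e' ▸ hj)).trans (hb j hj)
  refine absurd (funext fun j => ?_) hab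
  by_cases hj : j = k
  · exact hj ▸ (hi.2 k e).symm.trans (hi'.2 k e')
  · exact (ha j hj).trans (hb j hj).symm

end Pool.Agent.P.MP_25e9c6_co
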