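import Pool.Agent.P.MP_25e9c6_co.Minor

namespace Pool.Agent.P.MP_25e9c6_co

open Finset

variable {T : Type} [Fintype T] [DecidableEq T] {W : Type} {G : SimpleGraph W}

omit [Fintype T] in
lemma Good.inter {V : Set (T → Bool)} (hV : Good V) (R : Set T) (x : T → Bool) :
    Good (V ∩ cube R x) := by
  refine ⟨hV.iso.inter R x, fun R' x' p q r hd h6 h7 => ?_⟩
  obtain ⟨v, ⟨⟨-, h1⟩, h2⟩, -⟩ := id h7
  have e : V ∩ cube R x ∩ cube R' x' = V ∩ cube (R ∪ R') v := by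
    ext u
    constructor
    · rintro ⟨⟨a, b⟩, c⟩
      exact ⟨a, fun t ht => ht.elim (fun k => (b t k).trans (h1 t k).symm)
        fun k => (c t k).trans (h2 t k).symm⟩
    · rintro ⟨a, b⟩
      exact ⟨⟨a, fun t k => (b t (.inl k)).trans (h1 t k)⟩,
        fun t k => (b t (.inr k)).trans (h2 t k)⟩
  rw [e] at h6 h7 ⊢
  exact hV.noq _ _ p q r hd h6 h7

lemma Good.update {V : Set (T → Bool)} (hV : Good V) (c : T) :
    Good ((fun v => Function.update v c false) '' V) := by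
  refine ⟨hV.iso.update c, fun R x p q r hd h6 h7 => ?_⟩
  have fw : ∀ {p q r : T × Bool}, p.1 ≠ c → q.1 ≠ c → r.1 ≠ c →
      A3 ((fun v => Function.update v c false) '' V ∩ cube R x) p q r →
      A3 (V ∩ cube (R \ {c}) x) p q r := by
    rintro p q r a1 a2 a3 ⟨_, ⟨⟨v, hv, rfl⟩, k⟩, k1, k2, k3⟩
    refine ⟨v, ⟨hv, fun t ht => ?_⟩, by simpa [sat, a1] using k1, by simpa [sat, a2] using k2,
      by simpa [sat, a3] using k3⟩
    have : t ≠ c := ht.2
    simpa [this] using k t ht.1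
  have nc : ∀ {p : T × Bool} {u v : T → Bool}, u ∈ (fun v => Function.update v c false) '' V →
      v ∈ (fun v => Function.update v c false) '' V → sat u p → sat v (ng p) → p.1 ≠ c := by
    rintro p _ _ ⟨u, -, rfl⟩ ⟨v, -, rfl⟩ k1 k2 e
    rw [sat_ng] at k2
    exact k2 ((sat_congr (by simp [e])).1 k1)
  obtain ⟨s1, s2, s3, s4, s5, s6⟩ := h6
  obtain ⟨u1, ⟨m1, n1⟩, a1, b1, c1⟩ := id s1
  obtain ⟨u4, ⟨m4, -⟩, a4, b4, c4⟩ := id s4
  have hp := nc m4 m1 a4 a1
  have hq := nc m1 m4 b1 b4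
  have hr := nc m1 m4 c1 c4
  obtain ⟨v, ⟨hv, k⟩, k1, k2, k3⟩ := hV.noq _ _ p q r hd ⟨fw hp hq hr s1, fw hp hq hr s2,
    fw hp hq hr s3, fw hp hq hr s4, fw hp hq hr s5, fw hp hq hr s6⟩ (fw hp hq hr h7)
  refine ⟨_, ⟨⟨v, hv, rfl⟩, fun t ht => ?_⟩, by simpa [sat, hp] using k1,
    by simpa [sat, hq] using k2, by simpa [sat, hr] using k3⟩
  by_cases e : t = c
  · obtain ⟨w, -, rfl⟩ := m1
    rw [← n1 t ht]
    simp [e]
  · simpa [e] using k t ⟨ht, e⟩

lemma Emb.range_convex {ψ : W → T → Bool} (h : Emb G ψ) (hI : Iso (Set.range ψ)) {S : Set W}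
    (hS : IsConvexIn G S) {s₀ : W} (h0 : s₀ ∈ S) :
    Set.range (fun u : S => ψ u.1) = Set.range ψ ∩ cube {e | ∀ s ∈ S, ψ s e = ψ s₀ e} (ψ s₀) := by
  ext y
  constructor
  · rintro ⟨u, rfl⟩
    exact ⟨⟨u.1, rfl⟩, fun e he => he u.1 u.2⟩
  · rintro ⟨⟨v, rfl⟩, hv⟩
    have key : ∀ n, ∀ s ∈ S, hammingDist (ψ s) (ψ v) = n → v ∈ S := by
      intro n
      induction n with
      | zero => exact fun s hs hn => h.inj (hammingDist_eq_zero.1 hn) ▸ hs
      | succ n ih =>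
        intro s hs hn
        obtain ⟨e, he, z, hz⟩ := hI _ ⟨s, rfl⟩ _ ⟨v, rfl⟩ fun k => by rw [k] at hn; simp at hn
        obtain ⟨t, ht, hst⟩ : ∃ t ∈ S, ψ s e ≠ ψ t e := by
          by_contra hn
          push Not at hn
          exact he ((hn _ h0).trans (hv e fun t ht => (hn t ht).symm.trans (hn _ h0)).symm)
        obtain ⟨p, hp⟩ := h.walk hI subset_rfl _ z t ⟨z, rfl⟩ ⟨t, rfl⟩ rfl
        have k1 := dd_flp he
        have k2 := dd_flp hst
        refine ih z (hS s hs t ht (.cons ((h.adj s z).2 (hz ▸ hd_flp _ _)) p) ?_ z (by simp))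
          (by rw [hz]; omega)
        rw [h.dist_eq hI subset_rfl ⟨s, rfl⟩ ⟨t, rfl⟩, SimpleGraph.Walk.length_cons, hp, hz, k2]
    exact ⟨⟨v, key _ s₀ h0 rfl⟩, rfl⟩

lemma good_minor {ψ : W → T → Bool} (h : Emb G ψ) (hg : Good (Set.range ψ)) {W' : Type}
    {H : SimpleGraph W'} (hm : PcMinor G W' H) :
    ∃ ψ' : W' → T → Bool, Emb H ψ' ∧ Good (Set.range ψ') := by
  induction hm with
  | refl => exact ⟨ψ, h, hg⟩
  | contr x y _ hxy ih =>
    obtain ⟨χ, h1, h2⟩ := ih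
    obtain ⟨c, hc⟩ := exists_ne_of_hd ((h1.adj x y).1 hxy ▸ one_ne_zero)
    obtain ⟨χ', k1, k2⟩ := h1.contract h2.iso hxy hc
    exact ⟨χ', k1, k2 ▸ h2.update c⟩
  | restr S _ hS ih =>
    obtain ⟨χ, h1, h2⟩ := ih
    refine ⟨_, h1.induce S, ?_⟩
    rcases S.eq_empty_or_nonempty with rfl | ⟨s₀, h0⟩
    · refine ⟨?_, ?_⟩
      · rintro _ ⟨u, -⟩
        exact u.2.elim
      · rintro _ _ _ _ _ _ _ ⟨_, ⟨⟨u, -⟩, -⟩, -⟩
        exact u.2.elim
    · rw [h1.range_convex h2.iso hS h0]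
      exact h2.inter _ _

lemma sq_flp {u w : T → Bool} {e f : T} (h1 : hammingDist (flp u e) w = 1)
    (h2 : hammingDist (flp u f) w = 1) (hef : e ≠ f) (hw : w ≠ u) : w = flp (flp u f) e := by
  refine eq_flp h2 fun k => hw ?_
  rw [flp_ne _ hef] at k
  rw [eq_flp h1 (e := e) (by rw [← k]; simp [flp]), flp_flp]

lemma not_good_q3 {χ : _ → T → Bool} (h : Emb Q3minus χ) : ¬ Good (Set.range χ) := by
  intro hg
  have ad : ∀ a b, hammingDist a.1 b.1 = 1 → hammingDist (χ a) (χ b) = 1 := fun a b k =>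
    (h.adj a b).1 ((emb_q3.adj a b).2 k)
  let m : ∀ a b c : Bool, ¬ (a && b && c) → {a : Fin 3 → Bool | a ≠ fun _ => true} :=
    fun a b c k => ⟨![a, b, c], by revert a b c; decide⟩
  have st : ∀ a, hammingDist (m false false false (by simp)).1 a.1 = 1 →
      ∃ e, χ a = flp (χ (m false false false (by simp))) e := fun a k => by
    obtain ⟨e, he⟩ := exists_ne_of_hd (ad _ _ k ▸ one_ne_zero)
    exact ⟨e, eq_flp (ad _ _ k) he⟩
  obtain ⟨e1, a1⟩ := st (m true false false (by simp)) (by decide)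
  obtain ⟨e2, a2⟩ := st (m false true false (by simp)) (by decide)
  obtain ⟨e3, a3⟩ := st (m false false true (by simp)) (by decide)
  have d12 : e1 ≠ e2 := fun k => absurd (h.inj (a1.trans (k ▸ a2.symm))) (by decide)
  have d13 : e1 ≠ e3 := fun k => absurd (h.inj (a1.trans (k ▸ a3.symm))) (by decide)
  have d23 : e2 ≠ e3 := fun k => absurd (h.inj (a2.trans (k ▸ a3.symm))) (by decide)
  have sq : ∀ a b w e f, χ a = flp (χ (m false false false (by simp))) e →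
      χ b = flp (χ (m false false false (by simp))) f → e ≠ f → hammingDist a.1 w.1 = 1 →
      hammingDist b.1 w.1 = 1 → w ≠ m false false false (by simp) →
      χ w = flp (flp (χ (m false false false (by simp))) f) e :=
    fun a b w e f k1 k2 k3 k4 k5 k6 => sq_flp (k1 ▸ ad a w k4) (k2 ▸ ad b w k5) k3 (h.inj.ne k6)
  have b12 := sq _ _ (m true true false (by simp)) _ _ a1 a2 d12 (by decide) (by decide) (by decide)
  have b13 := sq _ _ (m true false true (by simp)) _ _ a1 a3 d13 (by decide) (by decide) (by decide)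
  have b23 := sq _ _ (m false true true (by simp)) _ _ a2 a3 d23 (by decide) (by decide) (by decide)
  generalize ho : χ (m false false false (by simp)) = o at *
  have mem : ∀ {v y}, χ v = y → y ∈ Set.range χ ∩ cube ∅ o := fun {v y} k =>
    ⟨⟨v, k⟩, fun _ k => k.elim⟩
  obtain ⟨_, ⟨⟨⟨v, hv⟩, rfl⟩, -⟩, k1, k2, k3⟩ := hg.noq ∅ o (e1, !o e1) (e2, !o e2) (e3, !o e3)
    ⟨d12, d13, d23⟩
    ⟨⟨_, mem b23, by simp [sat, ng, flp, d12, d13, d23, d23.symm]⟩,
      ⟨_, mem b13, by simp [sat, ng, flp, d12.symm, d13, d13.symm, d23]⟩,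
      ⟨_, mem b12, by simp [sat, ng, flp, d12, d12.symm, d13.symm, d23.symm]⟩,
      ⟨_, mem a1, by simp [sat, ng, flp, d12.symm, d13.symm]⟩,
      ⟨_, mem a2, by simp [sat, ng, flp, d12, d23.symm]⟩,
      ⟨_, mem a3, by simp [sat, ng, flp, d13, d23]⟩⟩ ⟨_, mem ho, by simp [sat, ng]⟩
  have ev : ∀ v : {a : Fin 3 → Bool | a ≠ fun _ => true}, v = m false false false (by simp) ∨
      v = m true false false (by simp) ∨ v = m false true false (by simp) ∨
      v = m false false true (by simp) ∨ v = m true true false (by simp) ∨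
      v = m true false true (by simp) ∨ v = m false true true (by simp) := by decide
  simp only [sat] at k1 k2 k3
  rcases ev ⟨v, hv⟩ with k | k | k | k | k | k | k <;> rw [k] at k1 k2 k3
  · simp [ho] at k1
  · simp [a1, flp, d12.symm] at k2
  · simp [a2, flp, d12] at k1
  · simp [a3, flp, d13] at k1
  · simp [b12, flp, d13.symm, d23.symm] at k3
  · simp [b13, flp, d12.symm, d23] at k2
  · simp [b23, flp, d12, d13] at k1

theorem hyper_of_good {n : ℕ} [Nonempty W] {ψ : W → Fin n → Bool} (h : Emb G ψ)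
    (hg : Good (Set.range ψ)) : Hypercellular G := by
  refine ⟨⟨⟨fun u v => ?_⟩, n, ψ, fun u v => h.dist_eq hg.iso subset_rfl ⟨u, rfl⟩ ⟨v, rfl⟩⟩,
    fun W' H hm => ⟨fun φ => ?_⟩⟩
  · obtain ⟨p, -⟩ := h.walk hg.iso subset_rfl _ u v ⟨u, rfl⟩ ⟨v, rfl⟩ rfl
    exact ⟨p⟩
  · obtain ⟨χ, h1, h2⟩ := good_minor h hg hm
    refine not_good_q3 (χ := χ ∘ φ.symm) ⟨h1.inj.comp φ.symm.injective, fun u v => ?_⟩ ?_
    · rw [← φ.symm.map_adj_iff, h1.adj]
      rfl
    · rwa [φ.symm.surjective.range_comp]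

end Pool.Agent.P.MP_25e9c6_co
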