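import Pool.Agent.P.MP_25e9c6_co.Ret.Conv
import Pool.Agent.P.MP_25e9c6_co.Ret.Colour

namespace Pool.Agent.P.MP_25e9c6_co

open Finset

/-- the labels of the vertices of the example, as binary numbers -/
def tbl : Fin 26 → ℕ := ![0, 1, 2, 3, 4, 5, 6, 7, 8, 16, 32, 65, 72, 73, 136, 144, 152, 258, 272,
  274, 528, 544, 560, 1028, 1056, 1060]

def lab (v : Fin 26) (e : Fin 11) : Bool := (tbl v).testBit e

/-- a cube and five hexagons around one vertex -/
def exG : SimpleGraph (Fin 26) := SimpleGraph.fromRel fun u v => hammingDist (lab u) (lab v) = 1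

def hx : Fin 5 → Fin 6 → Fin 26 := ![![0, 1, 11, 13, 12, 8], ![0, 8, 14, 16, 15, 9],
  ![0, 9, 18, 19, 17, 2], ![0, 9, 20, 22, 21, 10], ![0, 10, 24, 25, 23, 4]]

def cv (a : Fin 3 → Bool) : Fin 26 :=
  (if a 0 then 1 else 0) + (if a 1 then 2 else 0) + if a 2 then 4 else 0

lemma ex_emb : Emb exG lab := by
  refine ⟨by decide +kernel, fun u v => ?_⟩
  rw [exG, SimpleGraph.fromRel_adj]
  refine ⟨fun h => h.2.elim id fun k => hammingDist_comm (lab u) (lab v) ▸ k,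
    fun h => ⟨fun e => ?_, .inl h⟩⟩
  rw [e] at h
  simp at h

lemma ex_iso : Iso (Set.range lab) := by
  have : ∀ u w, u ≠ w → ∃ e, lab u e ≠ lab w e ∧ ∃ z, tbl z = tbl u ^^^ 2 ^ e.1 := by
    decide +kernel
  rintro _ ⟨u, rfl⟩ _ ⟨w, rfl⟩ h
  obtain ⟨e, he, z, hz⟩ := this u w fun k => h (by rw [k])
  refine ⟨e, he, z, funext fun c => ?_⟩
  by_cases k : c = e
  · subst k
    simp [lab, flp, hz]
  · have : e.1 ≠ c.1 := fun k' => k (Fin.ext k'.symm)
    simp [lab, flp, hz, k, Nat.testBit_two_pow_of_ne this]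

lemma ex_good : Good (Set.range lab) := by
  refine ⟨ex_iso, fun R x p q r hd h6 h7 => ?_⟩
  have d1 : ∀ e f g : Fin 11, e ≠ f → e ≠ g → f ≠ g →
      7 ≤ (univ.image fun v => (lab v e, lab v f, lab v g)).card → e.1 < 3 ∧ f.1 < 3 ∧ g.1 < 3 := by
    decide +kernel
  have d2 : ∀ u v, (∀ e : Fin 11, e.1 < 3 → lab u e ≠ lab v e) → ∀ c : Fin 11, 3 ≤ c.1 →
      lab u c = lab v c → lab u c = false := by decide +kernel
  have d3 : ∀ e f g : Fin 11, e.1 < 3 → f.1 < 3 → g.1 < 3 → e ≠ f → e ≠ g → f ≠ g →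
      ∀ a b c, ∃ w, lab w e = a ∧ lab w f = b ∧ lab w g = c ∧
        ∀ t : Fin 11, 3 ≤ t.1 → lab w t = false := by decide +kernel
  obtain ⟨e, a⟩ := p
  obtain ⟨f, b⟩ := q
  obtain ⟨g, c⟩ := r
  obtain ⟨n1, n2, n3⟩ := hd
  have key : ∀ {a b c}, A3 (Set.range lab ∩ cube R x) (e, a) (f, b) (g, c) →
      (a, b, c) ∈ univ.image fun v => (lab v e, lab v f, lab v g) := by
    rintro a b c ⟨_, ⟨⟨v, rfl⟩, -⟩, k1, k2, k3⟩
    exact mem_image.2 ⟨v, mem_univ _, Prod.ext k1 (Prod.ext k2 k3)⟩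
  obtain ⟨s1, s2, s3, s4, s5, s6⟩ := h6
  obtain ⟨l1, l2, l3⟩ := d1 e f g n1 n2 n3 (by
    refine le_trans ?_ (card_le_card (s := univ.erase (a, b, c)) fun y hy => ?_)
    · simp
    · have : ∀ (a b c : Bool) (y : Bool × Bool × Bool), y ≠ (a, b, c) → y = (!a, b, c) ∨
          y = (a, !b, c) ∨ y = (a, b, !c) ∨ y = (a, !b, !c) ∨ y = (!a, b, !c) ∨
          y = (!a, !b, c) ∨ y = (!a, !b, !c) := by decide
      rcases this a b c y (mem_erase.1 hy).1 with k | k | k | k | k | k | k <;> rw [k]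
      exacts [key s1, key s2, key s3, key s4, key s5, key s6, key h7])
  obtain ⟨_, ⟨⟨u, rfl⟩, hu⟩, a1, b1, c1⟩ := s1
  obtain ⟨_, ⟨⟨v, rfl⟩, hv⟩, a4, b4, c4⟩ := s4
  have ne : ∀ t : Fin 11, t.1 < 3 → lab u t ≠ lab v t := fun t ht => by
    simp only [sat, ng] at a1 b1 c1 a4 b4 c4 n1 n2 n3
    obtain rfl | rfl | rfl : t = e ∨ t = f ∨ t = g := by omega
    · simp [a1, a4]
    · simp [b1, b4]
    · simp [c1, c4]
  obtain ⟨w, k1, k2, k3, k4⟩ := d3 e f g l1 l2 l3 n1 n2 n3 a b c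
  refine ⟨_, ⟨⟨w, rfl⟩, fun t ht => ?_⟩, k1, k2, k3⟩
  have e1 := (hu t ht).trans (hv t ht).symm
  have e2 : 3 ≤ t.1 := not_lt.1 fun k => ne t k e1
  rw [k4 t e2, ← hu t ht, d2 u v ne t e2 e1]

theorem ex_not_retract {ι : Type} {V : ι → Type} (H : ∀ i, SimpleGraph (V i))
    (hH : ∀ i, IsEmpty (SimpleGraph.Embedding Q3 (H i))) : ¬ IsRetract exG (boxPi H) := by
  rintro ⟨i, r, hi, hr, hri⟩
  have inj : Function.Injective i := Function.LeftInverse.injective hri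
  have ad : ∀ u v, hammingDist (lab u) (lab v) = 1 → (boxPi H).Adj (i u) (i v) := fun u v h =>
    (hi u v ((ex_emb.adj u v).2 h)).resolve_left (inj.ne ((ex_emb.adj u v).2 h).ne)
  have hφ : ∀ a b, (boxPi H).Adj a b → hammingDist (lab (r a)) (lab (r b)) ≤ 1 := fun a b h => by
    rcases hr a b h with k | k
    · simp [k]
    · exact ((ex_emb.adj _ _).1 k).le
  have hex : ∀ n, ∃ k, Col H k (i (hx n 0)) (i (hx n 1)) ∧ Col H k (i (hx n 0)) (i (hx n 5)) := by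
    intro n
    have f1 : ∀ n s, hammingDist (lab (hx n s)) (lab (hx n (s + 1))) = 1 := by decide +kernel
    have f3 : ∀ n s, hammingDist (lab (hx n s)) (lab (hx n (s + 3))) = 3 := by decide +kernel
    have fm : ∀ n s v, ¬ (hammingDist (lab v) (lab (hx n s)) ≤ 1 ∧
        hammingDist (lab v) (lab (hx n (s + 2))) ≤ 1 ∧
        hammingDist (lab v) (lab (hx n (s + 4))) ≤ 1) := by decide +kernel
    choose c hc using fun s => col_of_adj (ad _ _ (f1 n s))
    have := hex_col (fun a => lab (r a)) hφ (fun s => i (hx n s)) c hc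
      (fun s => by simpa only [hri] using f3 n s) fun a s => by simpa only [hri] using fm n s (r a)
    exact ⟨c 0, hc 0, this ▸ (hc 5).symm⟩
  obtain ⟨k, x1, x2⟩ := hex 0
  obtain ⟨k1, a1, a2⟩ := hex 1
  obtain rfl := x2.uniq a1
  obtain ⟨k2, b1, y1⟩ := hex 2
  obtain rfl := a2.uniq b1
  obtain ⟨k3, c1, c2⟩ := hex 3
  obtain rfl := a2.uniq c1
  obtain ⟨k4, d1, z1⟩ := hex 4
  obtain rfl := c2.uniq d1
  have g1 : ∀ j, j ≠ k → i 1 j = i 0 j := x1.symm.2
  have g2 : ∀ j, j ≠ k → i 2 j = i 0 j := y1.symm.2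
  have g4 : ∀ j, j ≠ k → i 4 j = i 0 j := z1.symm.2
  have g3 := fib_step g1 g2 (inj.ne (by decide)) (ad 3 1 (by decide)) (ad 3 2 (by decide))
  have g5 := fib_step g1 g4 (inj.ne (by decide)) (ad 5 1 (by decide)) (ad 5 4 (by decide))
  have g6 := fib_step g2 g4 (inj.ne (by decide)) (ad 6 2 (by decide)) (ad 6 4 (by decide))
  have g7 := fib_step g3 g5 (inj.ne (by decide)) (ad 7 3 (by decide)) (ad 7 5 (by decide))
  have g : ∀ a j, j ≠ k → i (cv a) j = i 0 j := fun a => by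
    have : ∀ a, cv a = 0 ∨ cv a = 1 ∨ cv a = 2 ∨ cv a = 3 ∨ cv a = 4 ∨ cv a = 5 ∨ cv a = 6 ∨
      cv a = 7 := by decide
    rcases this a with h | h | h | h | h | h | h | h <;> rw [h]
    exacts [fun _ _ => rfl, g1, g2, g3, g4, g5, g6, g7]
  have g' : ∀ a b j, j ≠ k → i (cv a) j = i (cv b) j := fun a b j h =>
    (g a j h).trans (g b j h).symm
  have hd : ∀ a b, hammingDist (lab (cv a)) (lab (cv b)) = hammingDist a b := by decide +kernel
  refine (hH k).false ⟨⟨fun a => i (cv a) k, fun a b h => ?_⟩, fun {a b} => ⟨fun h => ?_,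
    fun h => ?_⟩⟩
  · have : cv a = cv b := inj (funext fun j => by
      by_cases hj : j = k
      · exact hj ▸ h
      · exact g' a b j hj)
    rw [← hammingDist_eq_zero, ← hd, this, hammingDist_self]
  · have h1 := hφ _ _ (Col.adj ⟨h, g' a b⟩)
    have h2 : a ≠ b := fun e => h.ne (by rw [e])
    rw [hri, hri, hd] at h1
    exact (SimpleGraph.fromRel_adj _ _ _).2 ⟨h2, .inl (le_antisymm h1 (hammingDist_pos.2 h2))⟩
  · obtain ⟨j, hj⟩ := col_of_adj (ad (cv a) (cv b) (by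
      rw [hd]
      exact ((SimpleGraph.fromRel_adj _ _ _).1 h).2.elim id fun k => hammingDist_comm a b ▸ k))
    obtain rfl : j = k := by
      by_contra hn
      exact hj.1.ne (g' a b j hn)
    exact hj.1

end Pool.Agent.P.MP_25e9c6_co
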